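import Pool.Agent.EDG.Stmts

/-! Row RDX of squad EDG: degrees. -/

set_option autoImplicit false

namespace Pool.Agent.EDG.H55

open Polynomial Finset

theorem red2_F : red2 F = (X : (ZMod 2)[X][X]) ^ 2 := by
  have h2 : (2 : (ZMod 2)[X]) = 0 := CharTwo.two_eq_zero
  simp [red2, F, h2]

theorem red2_comp (p q : ℤ[X][X]) : red2 (p.comp q) = (red2 p).comp (red2 q) := by
  simp only [red2, coe_mapRingHom]
  exact Polynomial.map_comp _ _ _

theorem red2_h (e : ℕ) : red2 (h e) = (X : (ZMod 2)[X][X]) ^ e := by
  induction e using Nat.strong_induction_on with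
  | _ e ih =>
    rcases Nat.even_or_odd' e with ⟨k, hk | hk⟩
    · rcases Nat.eq_zero_or_pos k with h0 | h0
      · subst h0
        subst hk
        simp [h_zero]
      · have h1 := ih k (by omega)
        rw [hk, h_two_mul, red2_comp, h1, red2_F, X_pow_comp, ← pow_mul]
    · have h1 := ih k (by omega)
      have h3 : red2 (X : ℤ[X][X]) = X := by simp [red2]
      rw [hk, h_two_mul_add_one, map_mul, red2_comp, h1, red2_F, X_pow_comp, h3, ← pow_mul,
        pow_succ']

theorem rdx : RdxStmt := by
  rintro N d Θ ⟨P, hP, rfl⟩ hN hd
  have hPd : ∀ e, (P e).natDegree ≤ d - 1 := by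
    intro e
    by_cases h0 : P e = 0
    · rw [h0, natDegree_zero]
      exact Nat.zero_le _
    · have h1 := hP e
      rw [degree_eq_natDegree h0] at h1
      have h2 : (P e).natDegree < d := by exact_mod_cast h1
      omega
  constructor
  · have h1 : (∑ e ∈ range N, C (P e) * h e).natDegree ≤ N - 1 := by
      apply natDegree_sum_le_of_forall_le
      intro e he
      have he' := mem_range.1 he
      calc (C (P e) * h e).natDegree ≤ (h e).natDegree := natDegree_C_mul_le _ _
        _ = e := h_natDegree e
        _ ≤ N - 1 := by omega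
    omega
  · have h1 : dX (red2 (∑ e ∈ range N, C (P e) * h e)) ≤ d - 1 := by
      unfold dX
      rw [map_sum, map_sum]
      apply natDegree_sum_le_of_forall_le
      intro e _
      have h2 : red2 (C (P e)) = C ((P e).map (Int.castRingHom (ZMod 2))) := by simp [red2]
      rw [map_mul, red2_h, h2, map_mul, map_pow, Bivariate.swap_C, Bivariate.swap_Y]
      calc (((P e).map (Int.castRingHom (ZMod 2))).map C * C X ^ e).natDegree
          ≤ (((P e).map (Int.castRingHom (ZMod 2))).map C).natDegree + (C X ^ e : (ZMod 2)[X][X]).natDegree :=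
            natDegree_mul_le
        _ ≤ (P e).natDegree + 0 := by
            refine Nat.add_le_add ?_ ?_
            · exact natDegree_map_le.trans natDegree_map_le
            · rw [← C_pow, natDegree_C]
        _ ≤ d - 1 := hPd e
    omega

end Pool.Agent.EDG.H55
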